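import Pool.Agent.Y745.BM.Main
import Pool.Agent.H370R2.Final

/-!
# Beyond the Montgomery-Taylor threshold for quantitatively simple zeros

Unconditionally there are `c > 2 - c_MT⁻¹`, `δ > 0` and `C > 0` such that at least `(c - o(1)) N(T, 2 T)` zeros of
zeta with ordinate in `(T, 2 T]` are simple, lie on the critical line, have distance at least `δ / log T` from all
other zeros in the critical strip (on or off the line), and satisfy
`log T · exp (-C √(log log T)) ≤ |ζ'(ρ)| ≤ log T · exp (C √(log log T))`. In particular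
`N_s(T, 2 T) ≥ (c - o(T)) N(T, 2 T)`.

The starting theorem `TH803CL.isoS_main` counts the isolated simple zeros on the line. The derivative at almost all
isolated zeros is `log T · exp (Re P(γ) + o(√(log log T)))` for a sum `P` over the small primes (`P_DER` of the
project `Pool.Agent.Y745.SW`), and `P` is of size `O(√(log log T))` at all but `ε T log T` separated points, since it
has mean square `log log T` and is almost constant on intervals of length `1 / log T` around almost all points.
-/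

open Filter Topology Complex

namespace Pool.Agent.Results.MP_cb7589_nt.IsolatedNormalSize

/-- the nontrivial zeros of zeta with ordinate in `(T₁, T₂]` -/
def zeros (T₁ T₂ : ℝ) : Set ℂ :=
  {s : ℂ | riemannZeta s = 0 ∧ 0 < s.re ∧ s.re < 1 ∧ T₁ < s.im ∧ s.im ≤ T₂}

/-- the number of nontrivial zeros with ordinate in `(T₁, T₂]`, counted with multiplicity -/
noncomputable def N (T₁ T₂ : ℝ) : ℕ := ∑ᶠ s ∈ zeros T₁ T₂, analyticOrderNatAt riemannZeta s

/-- the number of simple zeros on the critical line with ordinate in `(T₁, T₂]` -/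
noncomputable def Ns (T₁ T₂ : ℝ) : ℕ :=
  {s : ℂ | s ∈ zeros T₁ T₂ ∧ s.re = 1 / 2 ∧ analyticOrderNatAt riemannZeta s = 1}.ncard

/-- the simple zeros on the critical line with ordinate in `(T, 2 T]` that have distance at least `δ / log T` from
all other nontrivial zeros of zeta, on or off the line, and at which the derivative has the size `log T` up to a
factor `exp (± C √(log log T))` -/
def good (δ C T : ℝ) : Set ℂ :=
  {s : ℂ | s ∈ zeros T (2 * T) ∧ s.re = 1 / 2 ∧ analyticOrderNatAt riemannZeta s = 1 ∧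
    (∀ s' : ℂ, riemannZeta s' = 0 → 0 < s'.re → s'.re < 1 → s' ≠ s → δ / Real.log T ≤ ‖s' - s‖) ∧
    Real.log T * Real.exp (-(C * Real.sqrt (Real.log (Real.log T)))) ≤ ‖deriv riemannZeta s‖ ∧
    ‖deriv riemannZeta s‖ ≤ Real.log T * Real.exp (C * Real.sqrt (Real.log (Real.log T)))}

/-- the Montgomery-Taylor constant -/
noncomputable def cMT : ℝ :=
  Real.sqrt 2 * Real.tan (1 / Real.sqrt 2) / (1 + Real.tan (1 / Real.sqrt 2) / Real.sqrt 2)

theorem zeros_eq (T₁ T₂ : ℝ) : zeros T₁ T₂ = H370.zset riemannZeta T₁ T₂ := by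
  ext s
  simp only [zeros, H370.zset, Set.mem_ofPred_eq]
  tauto

/-- the sets of zeros that are counted are finite -/
theorem zeros_finite (T₁ T₂ : ℝ) (h : 0 < T₁) : (zeros T₁ T₂).Finite := by
  rw [zeros_eq]
  exact H370.zset_finite' H370.good_zeta T₁ T₂ h

theorem N_eq (T₁ T₂ : ℝ) : N T₁ T₂ = H370.NN riemannZeta T₁ T₂ := by
  unfold N H370.NN H370.mult
  rw [zeros_eq]

theorem good_le (δ C T : ℝ) (h : 0 < T) : (good δ C T).ncard ≤ Ns T (2 * T) := by
  unfold Ns
  refine Set.ncard_le_ncard ?_ ((zeros_finite T (2 * T) h).subset fun s hs => hs.1)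
  rintro s ⟨h1, h2, h3, -⟩
  exact ⟨h1, h2, h3⟩

lemma zeta_analytic {s : ℂ} (hs : s ≠ 1) : AnalyticAt ℂ riemannZeta s := by
  have : DifferentiableOn ℂ riemannZeta ({1}ᶜ : Set ℂ) := fun z hz =>
    (differentiableAt_riemannZeta hz).differentiableWithinAt
  exact this.analyticAt (isOpen_compl_singleton.mem_nhds hs)

/-- the derivative does not vanish at a simple zero -/
lemma simple_of_order {s : ℂ} (hs : s ≠ 1) (h : riemannZeta s = 0)
    (h1 : analyticOrderNatAt riemannZeta s = 1) : deriv riemannZeta s ≠ 0 := by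
  have ha := zeta_analytic hs
  have h2 : analyticOrderAt riemannZeta s = 1 := by
    unfold analyticOrderNatAt at h1
    have h3 : analyticOrderAt riemannZeta s ≠ ⊤ := by
      intro h4; rw [h4] at h1; simp at h1
    rw [← ENat.coe_toNat h3, h1]; rfl
  have h3 := ha.analyticOrderAt_deriv_add_one
  simp only [h, sub_zero] at h3
  rw [h2] at h3
  have h4 : analyticOrderAt (deriv riemannZeta) s = 0 := by
    revert h3
    generalize analyticOrderAt (deriv riemannZeta) s = x
    intro h3
    cases x with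
    | top => simp at h3
    | coe n =>
      have h6 : n + 1 = 1 := by exact_mod_cast h3
      have h7 : n = 0 := by omega
      rw [h7]; rfl
  exact ha.deriv.analyticOrderAt_eq_zero.mp h4

open Classical in
lemma card_le (δ C T : ℝ) (hT : 10 ≤ T) (hL : 1 ≤ Real.log T) :
    ((TH803CL.isoA riemannZeta T (2 * T) (δ / Real.log T)).filter (fun s =>
        |Real.log ‖deriv riemannZeta s‖ - Real.log (Real.log T)| ≤
          C * Real.sqrt (Real.log (Real.log T)))).card ≤ (good δ C T).ncard := by
  rw [← Set.ncard_coe_finset]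
  refine Set.ncard_le_ncard ?_ ((zeros_finite T (2 * T) (by linarith)).subset fun s hs => hs.1)
  intro s hs
  rw [Finset.mem_coe, Finset.mem_filter] at hs
  obtain ⟨hs1, hs2⟩ := hs
  unfold TH803CL.isoA at hs1
  rw [Finset.mem_filter] at hs1
  obtain ⟨hsZ, hre, hmul, hiso⟩ := hs1
  obtain ⟨a1, a2, a3, a4, a5⟩ := (H370.mem_Zf H370.good_zeta (by linarith : 1 ≤ T)).mp hsZ
  have hne : s ≠ 1 := by
    intro h
    rw [h] at hre
    norm_num at hre
  have hd : 0 < ‖deriv riemannZeta s‖ := norm_pos_iff.2 (simple_of_order hne a5 hmul)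
  have hL0 : 0 < Real.log T := by linarith
  rw [abs_le] at hs2
  refine ⟨⟨a5, a1, a2, a3, a4⟩, hre, hmul, fun s' b1 b2 b3 b4 => ?_, ?_, ?_⟩
  · rw [norm_sub_rev]
    exact hiso s' b1 b2 b3 b4
  · rw [← Real.log_le_log_iff (by positivity) hd, Real.log_mul hL0.ne' (Real.exp_pos _).ne', Real.log_exp]
    linarith [hs2.1]
  · rw [← Real.log_le_log_iff hd (by positivity), Real.log_mul hL0.ne' (Real.exp_pos _).ne', Real.log_exp]
    linarith [hs2.2]

/-- **beyond the Montgomery-Taylor threshold for quantitatively simple zeros** -/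
theorem result : ∃ c δ C : ℝ, 2 - cMT⁻¹ < c ∧ 0 < δ ∧ 0 < C ∧ ∃ o : ℝ → ℝ, Tendsto o atTop (𝓝 0) ∧
    ∀ T : ℝ, 0 < T → (c - o T) * (N T (2 * T) : ℝ) ≤ ((good δ C T).ncard : ℝ) ∧
      (good δ C T).ncard ≤ Ns T (2 * T) := by
  obtain ⟨κ, δ, C, hκ, hδ, -, hC, h⟩ := Pool.Agent.Y745.BM.beyond
  refine ⟨2 - cMT⁻¹ + κ, δ, C, by linarith, hδ, hC, ?_⟩
  have h2 : cMT⁻¹ = H370.cMTinv := H370.cMTinv_eq
  obtain ⟨o, ho, hT⟩ := H370.exists_small_o (2 - cMT⁻¹ + κ) (fun T => ((good δ C T).ncard : ℝ))
    (fun T => (N T (2 * T) : ℝ)) (fun T => Nat.cast_nonneg _) (by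
      rw [← Filter.eventually_atTop]
      filter_upwards [h, eventually_ge_atTop 10, Real.tendsto_log_atTop.eventually_ge_atTop 1] with T h3 h4 h5
      simp only [N_eq, h2]
      exact h3.trans (by exact_mod_cast card_le δ C T h4 h5))
  exact ⟨o, ho, fun T hT0 => ⟨hT T hT0, good_le δ C T hT0⟩⟩

end Pool.Agent.Results.MP_cb7589_nt.IsolatedNormalSize
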